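import Mathlib
import Pool.Agent.H870R4.Noz.Stmts

set_option autoImplicit false

open MeasureTheory Set
open scoped ContDiff Topology

namespace Pool.Agent.H817R4.Noz

open H870N

/-- remaining integral of the control -/
noncomputable def Av (h : ℝ → E2) (σ : ℝ) : E2 := ∫ τ in σ..1, h τ

lemma Av_hasDerivAt {h : ℝ → E2} (hh : Continuous h) (σ : ℝ) : HasDerivAt (Av h) (-h σ) σ :=
  intervalIntegral.integral_hasDerivAt_left (hh.intervalIntegrable _ _)
    (hh.stronglyMeasurableAtFilter _ _) hh.continuousAt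

lemma Av_continuous {h : ℝ → E2} (hh : Continuous h) : Continuous (Av h) :=
  continuous_iff_continuousAt.2 fun σ => (Av_hasDerivAt hh σ).continuousAt

lemma path_eq (t : ℝ) (x : E2) (h : ℝ → E2) (σ : ℝ) : path t x h σ = x - t • Av h σ := rfl

lemma path_hasDerivAt {h : ℝ → E2} (hh : Continuous h) (t : ℝ) (x : E2) (σ : ℝ) :
    HasDerivAt (path t x h) (t • h σ) σ := by
  have h1 := ((Av_hasDerivAt hh σ).const_smul t).const_sub x
  rw [smul_neg, neg_neg] at h1
  exact h1

lemma path_continuous {h : ℝ → E2} (hh : Continuous h) (t : ℝ) (x : E2) :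
    Continuous (path t x h) :=
  continuous_iff_continuousAt.2 fun σ => (path_hasDerivAt hh t x σ).continuousAt

lemma fderiv_eq_inner (Q : E2 → ℝ) (y v : E2) : fderiv ℝ Q y v = inner ℝ (gradient Q y) v := by
  unfold gradient
  rw [InnerProductSpace.toDual_symm_apply]

lemma gradient_continuous {Q : E2 → ℝ} (hQ : ContDiff ℝ ∞ Q) : Continuous (gradient Q) := by
  have h1 : Continuous (fderiv ℝ Q) := hQ.continuous_fderiv (by simp)
  exact (InnerProductSpace.toDual ℝ E2).symm.continuous.comp h1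

lemma EL_hasDerivAt {Q p0 : E2 → ℝ} (hQ : ContDiff ℝ ∞ Q) {h : ℝ → E2} (hh : Continuous h)
    (t : ℝ) (x : E2) (σ : ℝ) :
    HasDerivAt (EL Q p0 t x h) (t • gradient Q (path t x h σ)) σ := by
  have hc : Continuous (fun τ => gradient Q (path t x h τ)) :=
    (gradient_continuous hQ).comp (path_continuous hh t x)
  have h1 : HasDerivAt (fun σ => ∫ τ in (0 : ℝ)..σ, gradient Q (path t x h τ))
      (gradient Q (path t x h σ)) σ :=
    intervalIntegral.integral_hasDerivAt_right (hc.intervalIntegrable _ _)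
      (hc.stronglyMeasurableAtFilter _ _) hc.continuousAt
  exact (h1.const_smul t).const_add _

lemma EL_continuous {Q p0 : E2 → ℝ} (hQ : ContDiff ℝ ∞ Q) {h : ℝ → E2} (hh : Continuous h)
    (t : ℝ) (x : E2) : Continuous (EL Q p0 t x h) :=
  continuous_iff_continuousAt.2 fun σ => (EL_hasDerivAt hQ hh t x σ).continuousAt

/-- conservation of energy along a critical path -/
lemma energy {Q p0 : E2 → ℝ} (hQ : ContDiff ℝ ∞ Q) {h : ℝ → E2} (hh : Continuous h)
    (t : ℝ) (x : E2) (hEL : ∀ σ ∈ Icc (0 : ℝ) 1, h σ = EL Q p0 t x h σ) :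
    ∀ σ ∈ Icc (0 : ℝ) 1, 1 / 2 * ‖h σ‖ ^ 2 - Q (path t x h σ) = 1 / 2 * ‖h 1‖ ^ 2 - Q x := by
  intro σ hσ
  have hd : ∀ s, HasDerivAt (fun s => 1 / 2 * ‖EL Q p0 t x h s‖ ^ 2 - Q (path t x h s))
      (1 / 2 * (2 * inner ℝ (EL Q p0 t x h s) (t • gradient Q (path t x h s))) -
        inner ℝ (gradient Q (path t x h s)) (t • h s)) s := by
    intro s
    have h1 := ((EL_hasDerivAt (p0 := p0) hQ hh t x s).norm_sq).const_mul (1 / 2 : ℝ)
    have h2 : HasDerivAt (fun s => Q (path t x h s))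
        (inner ℝ (gradient Q (path t x h s)) (t • h s)) s := by
      have h3 := ((hQ.differentiable (by simp)).differentiableAt (x := path t x h s)).hasFDerivAt
      have h4 := h3.comp_hasDerivAt s (path_hasDerivAt hh t x s)
      rw [fderiv_eq_inner] at h4
      exact h4
    exact h1.sub h2
  have h5 : ∫ s in σ..1, (1 / 2 * (2 * inner ℝ (EL Q p0 t x h s) (t • gradient Q (path t x h s))) -
        inner ℝ (gradient Q (path t x h s)) (t • h s)) = 0 := by
    rw [intervalIntegral.integral_congr (g := fun _ => (0 : ℝ))]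
    · simp
    · intro s hs
      rw [uIcc_of_le hσ.2] at hs
      have hs' : s ∈ Icc (0 : ℝ) 1 := ⟨hσ.1.trans hs.1, hs.2⟩
      simp only
      rw [← hEL s hs', inner_smul_right, inner_smul_right, real_inner_comm]
      ring
  have hcont : Continuous (fun s => (1 / 2 * (2 * inner ℝ (EL Q p0 t x h s)
      (t • gradient Q (path t x h s))) - inner ℝ (gradient Q (path t x h s)) (t • h s))) := by
    have e1 := EL_continuous (p0 := p0) hQ hh t x
    have e2 : Continuous (fun s => gradient Q (path t x h s)) :=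
      (gradient_continuous hQ).comp (path_continuous hh t x)
    fun_prop
  have h6 := intervalIntegral.integral_eq_sub_of_hasDerivAt (fun s _ => hd s)
    (hcont.intervalIntegrable σ 1)
  rw [h5] at h6
  have h7 : path t x h 1 = x := by simp [path]
  rw [← hEL σ hσ, ← hEL 1 ⟨zero_le_one, le_rfl⟩, h7] at h6
  linarith

/-- the time derivative -/
lemma time_part {Q p0 : E2 → ℝ} (hQ : ContDiff ℝ ∞ Q) {h : ℝ → E2} (hh : Continuous h)
    (t : ℝ) (x : E2) (hEL : ∀ σ ∈ Icc (0 : ℝ) 1, h σ = EL Q p0 t x h σ) :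
    - inner ℝ (gradient p0 (path t x h 0)) (Av h 0) -
      (∫ σ in (0 : ℝ)..1, (1 / 2 * ‖h σ‖ ^ 2 + Q (path t x h σ))) +
      t * ∫ σ in (0 : ℝ)..1, inner ℝ (gradient Q (path t x h σ)) (Av h σ) =
    1 / 2 * ‖h 1‖ ^ 2 - Q x := by
  have hd : ∀ s, HasDerivAt (fun s => inner ℝ (EL Q p0 t x h s) (Av h s))
      (inner ℝ (EL Q p0 t x h s) (-h s) + inner ℝ (t • gradient Q (path t x h s)) (Av h s)) s := by
    intro s
    exact (EL_hasDerivAt (p0 := p0) hQ hh t x s).inner ℝ (Av_hasDerivAt hh s)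
  have e1 := EL_continuous (p0 := p0) hQ hh t x
  have e2 : Continuous (fun s => gradient Q (path t x h s)) :=
    (gradient_continuous hQ).comp (path_continuous hh t x)
  have e3 := Av_continuous hh
  have e4 := path_continuous hh t x
  have e5 : Continuous Q := hQ.continuous
  have h6 := intervalIntegral.integral_eq_sub_of_hasDerivAt (a := 0) (b := 1) (fun s _ => hd s)
    (by
      apply Continuous.intervalIntegrable
      fun_prop)
  have h7 : Av h 1 = 0 := by simp [Av]
  have h8 : EL Q p0 t x h 0 = - gradient p0 (path t x h 0) := by simp [EL]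
  rw [h7, h8, inner_zero_right, inner_neg_left] at h6
  have h9 : ∫ s in (0 : ℝ)..1, (inner ℝ (EL Q p0 t x h s) (-h s) +
      inner ℝ (t • gradient Q (path t x h s)) (Av h s)) =
      (∫ s in (0 : ℝ)..1, -(‖h s‖ ^ 2)) +
        t * ∫ s in (0 : ℝ)..1, inner ℝ (gradient Q (path t x h s)) (Av h s) := by
    rw [← intervalIntegral.integral_const_mul, ← intervalIntegral.integral_add]
    · apply intervalIntegral.integral_congr
      intro s hs
      rw [uIcc_of_le zero_le_one] at hs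
      simp only
      rw [← hEL s hs, inner_neg_right, real_inner_self_eq_norm_sq, real_inner_smul_left]
    · apply Continuous.intervalIntegrable
      fun_prop
    · apply Continuous.intervalIntegrable
      fun_prop
  rw [h9] at h6
  have h10 : ∫ σ in (0 : ℝ)..1, (1 / 2 * ‖h σ‖ ^ 2 - Q (path t x h σ)) =
      1 / 2 * ‖h 1‖ ^ 2 - Q x := by
    rw [intervalIntegral.integral_congr (g := fun _ => 1 / 2 * ‖h 1‖ ^ 2 - Q x)]
    · simp
    · intro s hs
      rw [uIcc_of_le zero_le_one] at hs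
      exact energy hQ hh t x hEL s hs
  have i1 : IntervalIntegrable (fun σ => ‖h σ‖ ^ 2) volume 0 1 := by
    apply Continuous.intervalIntegrable
    fun_prop
  have i2 : IntervalIntegrable (fun σ => Q (path t x h σ)) volume 0 1 := by
    apply Continuous.intervalIntegrable
    fun_prop
  rw [intervalIntegral.integral_sub (i1.const_mul _) i2, intervalIntegral.integral_const_mul] at h10
  rw [intervalIntegral.integral_add (i1.const_mul _) i2, intervalIntegral.integral_const_mul]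
  rw [intervalIntegral.integral_neg] at h6
  linarith

/-- the end point map is linear in `(t, x)` -/
noncomputable def Lp (h : ℝ → E2) (σ : ℝ) : ℝ × E2 →L[ℝ] E2 :=
  ContinuousLinearMap.snd ℝ ℝ E2 - (ContinuousLinearMap.fst ℝ ℝ E2).smulRight (Av h σ)

lemma Lp_apply (h : ℝ → E2) (σ : ℝ) (p : ℝ × E2) : Lp h σ p = path p.1 p.2 h σ := rfl

lemma Lp_apply' (h : ℝ → E2) (σ : ℝ) (p : ℝ × E2) : Lp h σ p = p.2 - p.1 • Av h σ := rfl

lemma Lp_continuous {h : ℝ → E2} (hh : Continuous h) : Continuous (Lp h) := by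
  have e3 := Av_continuous hh
  unfold Lp
  have h1 : Continuous (fun σ => (ContinuousLinearMap.smulRightL ℝ (ℝ × E2) E2
    (ContinuousLinearMap.fst ℝ ℝ E2)) (Av h σ)) :=
    ((ContinuousLinearMap.smulRightL ℝ (ℝ × E2) E2
      (ContinuousLinearMap.fst ℝ ℝ E2)).continuous).comp e3
  exact continuous_const.sub h1

lemma integral_hasFDerivAt {Q : E2 → ℝ} (hQ : ContDiff ℝ ∞ Q) (hQc : HasCompactSupport Q)
    {h : ℝ → E2} (hh : Continuous h) (p : ℝ × E2) :
    HasFDerivAt (fun p : ℝ × E2 => ∫ σ in (0 : ℝ)..1, (1 / 2 * ‖h σ‖ ^ 2 + Q (path p.1 p.2 h σ)))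
      (∫ σ in (0 : ℝ)..1, (fderiv ℝ Q (Lp h σ p)).comp (Lp h σ)) p := by
  have cQ : Continuous Q := hQ.continuous
  have cF : Continuous (fderiv ℝ Q) := hQ.continuous_fderiv (by simp)
  have cL := Lp_continuous hh
  obtain ⟨C, hC⟩ := (hQc.fderiv (𝕜 := ℝ)).exists_bound_of_continuous cF
  obtain ⟨B, hB⟩ := (isCompact_uIcc (a := (0 : ℝ)) (b := 1)).exists_bound_of_continuousOn
    cL.continuousOn
  have hC0 : 0 ≤ C := (norm_nonneg _).trans (hC 0)
  refine intervalIntegral.hasFDerivAt_integral_of_dominated_of_fderiv_le (s := univ)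
    (F := fun (p : ℝ × E2) σ => 1 / 2 * ‖h σ‖ ^ 2 + Q (path p.1 p.2 h σ))
    (F' := fun (p : ℝ × E2) σ => (fderiv ℝ Q (Lp h σ p)).comp (Lp h σ))
    (bound := fun _ => C * B) Filter.univ_mem ?_ ?_ ?_ ?_ ?_ ?_
  · refine Filter.Eventually.of_forall fun q => ?_
    have e4 := path_continuous hh q.1 q.2
    have : Continuous (fun σ => 1 / 2 * ‖h σ‖ ^ 2 + Q (path q.1 q.2 h σ)) := by fun_prop
    exact this.aestronglyMeasurable
  · have e4 := path_continuous hh p.1 p.2
    apply Continuous.intervalIntegrable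
    fun_prop
  · have : Continuous (fun σ => (fderiv ℝ Q (Lp h σ p)).comp (Lp h σ)) := by
      have h1 : Continuous (fun σ => Lp h σ p) := cL.clm_apply continuous_const
      exact (cF.comp h1).clm_comp cL
    exact this.aestronglyMeasurable
  · refine Filter.Eventually.of_forall fun σ hσ q _ => ?_
    refine (ContinuousLinearMap.opNorm_comp_le _ _).trans ?_
    exact mul_le_mul (hC _) (hB σ (uIoc_subset_uIcc hσ)) (norm_nonneg _) hC0
  · exact intervalIntegrable_const
  · refine Filter.Eventually.of_forall fun σ _ q _ => ?_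
    have h1 := ((hQ.differentiable (by simp)).differentiableAt (x := Lp h σ q)).hasFDerivAt
    have h2 := h1.comp q (Lp h σ).hasFDerivAt
    exact h2.const_add _

/-- the derivative of the payoff for a fixed critical control -/
noncomputable def Dp (Q : E2 → ℝ) (x v : E2) : ℝ × E2 →L[ℝ] ℝ :=
  (1 / 2 * ‖v‖ ^ 2 - Q x) • ContinuousLinearMap.fst ℝ ℝ E2 -
    (innerSL ℝ v).comp (ContinuousLinearMap.snd ℝ ℝ E2)

lemma payoff_hasFDerivAt {Q p0 : E2 → ℝ} (hQ : ContDiff ℝ ∞ Q) (hQc : HasCompactSupport Q)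
    (hp : ContDiff ℝ ∞ p0) {h : ℝ → E2} (hh : Continuous h) (t : ℝ) (x : E2)
    (hEL : ∀ σ ∈ Icc (0 : ℝ) 1, h σ = EL Q p0 t x h σ) :
    HasFDerivAt (fun p : ℝ × E2 => Jf Q p0 p.1 p.2 h) (Dp Q x (h 1)) (t, x) := by
  have h1 : HasFDerivAt (fun p : ℝ × E2 => p0 (path p.1 p.2 h 0))
      ((fderiv ℝ p0 (Lp h 0 (t, x))).comp (Lp h 0)) (t, x) :=
    ((hp.differentiable (by simp)).differentiableAt (x := Lp h 0 (t, x))).hasFDerivAt.comp (t, x)
      (Lp h 0).hasFDerivAt
  have h2 := (hasFDerivAt_fst (𝕜 := ℝ) (p := (t, x))).mul (integral_hasFDerivAt hQ hQc hh (t, x))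
  have h3 := h1.sub h2
  refine h3.congr_fderiv ?_
  have cF : Continuous (fderiv ℝ Q) := hQ.continuous_fderiv (by simp)
  have cL := Lp_continuous hh
  have cI : IntervalIntegrable (fun σ => (fderiv ℝ Q (Lp h σ (t, x))).comp (Lp h σ)) volume 0 1 := by
    apply Continuous.intervalIntegrable
    have h1 : Continuous (fun σ => Lp h σ (t, x)) := cL.clm_apply continuous_const
    exact (cF.comp h1).clm_comp cL
  refine ContinuousLinearMap.ext fun w => ?_
  obtain ⟨τ, ξ⟩ := w
  have k1 : (∫ σ in (0 : ℝ)..1, (fderiv ℝ Q (Lp h σ (t, x))).comp (Lp h σ)) (τ, ξ) =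
      inner ℝ (∫ σ in (0 : ℝ)..1, gradient Q (path t x h σ)) ξ -
        τ * ∫ σ in (0 : ℝ)..1, inner ℝ (gradient Q (path t x h σ)) (Av h σ) := by
    have e2 : Continuous (fun s => gradient Q (path t x h s)) :=
      (gradient_continuous hQ).comp (path_continuous hh t x)
    have e3 := Av_continuous hh
    rw [ContinuousLinearMap.intervalIntegral_apply cI]
    have k2 : inner ℝ (∫ σ in (0 : ℝ)..1, gradient Q (path t x h σ)) ξ =
        ∫ σ in (0 : ℝ)..1, inner ℝ (gradient Q (path t x h σ)) ξ := by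
      rw [real_inner_comm]
      have := (innerSL ℝ ξ).intervalIntegral_comp_comm (e2.intervalIntegrable (μ := volume) 0 1)
      simp only [innerSL_apply_apply] at this
      rw [← this]
      apply intervalIntegral.integral_congr
      intro σ _
      exact real_inner_comm _ _
    rw [k2, ← intervalIntegral.integral_const_mul, ← intervalIntegral.integral_sub]
    · apply intervalIntegral.integral_congr
      intro σ _
      simp only [ContinuousLinearMap.comp_apply]
      rw [fderiv_eq_inner, Lp_apply, Lp_apply', inner_sub_right, inner_smul_right]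
    · apply Continuous.intervalIntegrable
      fun_prop
    · apply Continuous.intervalIntegrable
      fun_prop
  have k3 := time_part (p0 := p0) hQ hh t x hEL
  have k4 : inner ℝ (h 1) ξ = - inner ℝ (gradient p0 (path t x h 0)) ξ +
      t * inner ℝ (∫ σ in (0 : ℝ)..1, gradient Q (path t x h σ)) ξ := by
    rw [hEL 1 ⟨zero_le_one, le_rfl⟩]
    unfold EL
    rw [inner_add_left, inner_neg_left, real_inner_smul_left]
  have k5 : ((fderiv ℝ p0 (Lp h 0 (t, x))).comp (Lp h 0)) (τ, ξ) =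
      inner ℝ (gradient p0 (path t x h 0)) ξ - τ * inner ℝ (gradient p0 (path t x h 0)) (Av h 0) := by
    rw [ContinuousLinearMap.comp_apply, fderiv_eq_inner, Lp_apply, Lp_apply', inner_sub_right,
      inner_smul_right]
  have k6 : Dp Q x (h 1) (τ, ξ) = (1 / 2 * ‖h 1‖ ^ 2 - Q x) * τ - inner ℝ (h 1) ξ := by
    simp [Dp]
  rw [k6, ← k3, k4]
  simp only [sub_apply, add_apply, smul_apply, ContinuousLinearMap.coe_fst', smul_eq_mul]
  rw [k1, k5]
  ring

lemma Dp_apply (Q : E2 → ℝ) (x v : E2) (τ : ℝ) (ξ : E2) :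
    Dp Q x v (τ, ξ) = (1 / 2 * ‖v‖ ^ 2 - Q x) * τ - inner ℝ v ξ := by
  simp [Dp]

/-- the envelope theorem: short time solution of the Hamilton-Jacobi equation -/
theorem taskHJ3 : TaskHJ3 := by
  intro hj1 hj2 Q p0 hQ hp hQc hpc
  obtain ⟨T0, K, H, hT0, hHc, hHl, hHe⟩ := hj1 Q p0 hQ hp hQc hpc
  obtain ⟨C, hC⟩ := hj2 Q p0 hQ hp hQc hpc
  obtain ⟨T, hT, hTT, hT1⟩ : ∃ T : ℝ, 0 < T ∧ T ≤ T0 ∧ T ≤ 1 :=
    ⟨min T0 1, lt_min hT0 one_pos, min_le_left _ _, min_le_right _ _⟩
  have hIcc : ∀ s ∈ Ioo (-T) T, s ∈ Icc (-T0) T0 := fun s hs =>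
    ⟨by linarith [hs.1], by linarith [hs.2]⟩
  have hIcc1 : ∀ s ∈ Ioo (-T) T, s ∈ Icc (-1 : ℝ) 1 := fun s hs =>
    ⟨by linarith [hs.1], by linarith [hs.2]⟩
  let U : ℝ × E2 → ℝ := fun p => Jf Q p0 p.1 p.2 (H p.1 p.2)
  have hopen : IsOpen (Ioo (-T) T ×ˢ (univ : Set E2)) := isOpen_Ioo.prod isOpen_univ
  have hder : ∀ p ∈ Ioo (-T) T ×ˢ (univ : Set E2),
      HasFDerivAt U (Dp Q p.2 (H p.1 p.2 1)) p := by
    rintro ⟨t, x⟩ ⟨ht, -⟩
    have ht' := hIcc t ht
    have h1 := payoff_hasFDerivAt hQ hQc hp (hHc t x) t x (fun σ hσ => hHe t ht' x σ hσ)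
    have hr : HasFDerivAt (fun q : ℝ × E2 => U q - Jf Q p0 q.1 q.2 (H t x))
        (0 : ℝ × E2 →L[ℝ] ℝ) (t, x) := by
      refine Asymptotics.IsBigO.hasFDerivAt (n := 2) ?_ one_lt_two
      refine Asymptotics.IsBigO.of_bound (|C| * (4 * K ^ 2)) ?_
      have hnhds : ∀ᶠ q : ℝ × E2 in 𝓝 (t, x), q ∈ Ioo (-T) T ×ˢ (univ : Set E2) :=
        hopen.mem_nhds ⟨ht, mem_univ _⟩
      filter_upwards [hnhds] with q hq
      have hq' := hIcc q.1 hq.1
      have hq1 := hIcc1 q.1 hq.1
      have b1 : |t - q.1| ≤ ‖q - (t, x)‖ := by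
        rw [abs_sub_comm]
        exact norm_fst_le (q - (t, x))
      have b2 : ‖x - q.2‖ ≤ ‖q - (t, x)‖ := by
        rw [norm_sub_rev]
        exact norm_snd_le (q - (t, x))
      have h2 := hC q.1 hq1 q.2 (H q.1 q.2) (H t x) (hHc _ _) (hHc _ _)
        (fun σ hσ => hHe q.1 hq' q.2 σ hσ) (K * (|t - q.1| + ‖x - q.2‖))
        (fun σ hσ => hHl t ht' q.1 hq' x q.2 σ hσ)
      rw [Real.norm_eq_abs, abs_sub_comm]
      refine h2.trans ?_
      have h3 : (|t - q.1| + ‖x - q.2‖) ^ 2 ≤ (2 * ‖q - (t, x)‖) ^ 2 := by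
        apply pow_le_pow_left₀ (by positivity)
        linarith
      have h4 : C * (K * (|t - q.1| + ‖x - q.2‖)) ^ 2 ≤
          |C| * (K ^ 2 * (|t - q.1| + ‖x - q.2‖) ^ 2) := by
        rw [mul_pow]
        exact mul_le_mul_of_nonneg_right (le_abs_self C) (by positivity)
      refine h4.trans ?_
      rw [norm_pow, norm_norm]
      calc |C| * (K ^ 2 * (|t - q.1| + ‖x - q.2‖) ^ 2)
          ≤ |C| * (K ^ 2 * (2 * ‖q - (t, x)‖) ^ 2) := by gcongr
        _ = |C| * (4 * K ^ 2) * ‖q - (t, x)‖ ^ 2 := by ring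
    have h3 := h1.add hr
    rw [add_zero] at h3
    refine h3.congr_of_eventuallyEq (Filter.Eventually.of_forall fun q => ?_)
    simp
  have hHcont : ContinuousOn (fun p : ℝ × E2 => H p.1 p.2 1) (Ioo (-T) T ×ˢ (univ : Set E2)) := by
    intro p hp'
    refine ContinuousAt.continuousWithinAt ?_
    rw [ContinuousAt, tendsto_iff_norm_sub_tendsto_zero]
    have hb : ∀ᶠ q : ℝ × E2 in 𝓝 p,
        ‖H q.1 q.2 1 - H p.1 p.2 1‖ ≤ K * (|q.1 - p.1| + ‖q.2 - p.2‖) := by
      filter_upwards [hopen.mem_nhds hp'] with q hq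
      exact hHl q.1 (hIcc _ hq.1) p.1 (hIcc _ hp'.1) q.2 p.2 1 ⟨zero_le_one, le_rfl⟩
    have hlim : Filter.Tendsto (fun q : ℝ × E2 => K * (|q.1 - p.1| + ‖q.2 - p.2‖)) (𝓝 p) (𝓝 0) := by
      have : Continuous (fun q : ℝ × E2 => K * (|q.1 - p.1| + ‖q.2 - p.2‖)) := by fun_prop
      have h0 := this.tendsto p
      simpa using h0
    exact squeeze_zero' (Filter.Eventually.of_forall fun q => norm_nonneg _) hb hlim
  refine ⟨T, U, hT, ?_, ?_, ?_⟩
  · rw [show (1 : WithTop ℕ∞) = 0 + 1 from (zero_add 1).symm,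
      contDiffOn_succ_iff_fderiv_of_isOpen hopen]
    refine ⟨fun p hp' => (hder p hp').differentiableAt.differentiableWithinAt, by simp, ?_⟩
    rw [contDiffOn_zero]
    have h1 : ContinuousOn (fun p : ℝ × E2 => Dp Q p.2 (H p.1 p.2 1))
        (Ioo (-T) T ×ˢ (univ : Set E2)) := by
      unfold Dp
      have cQ : Continuous Q := hQ.continuous
      have c1 : ContinuousOn (fun p : ℝ × E2 => 1 / 2 * ‖H p.1 p.2 1‖ ^ 2 - Q p.2)
          (Ioo (-T) T ×ˢ (univ : Set E2)) :=
        (continuousOn_const.mul (hHcont.norm.pow 2)).sub (cQ.comp continuous_snd).continuousOn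
      have c2 : ContinuousOn (fun p : ℝ × E2 => (innerSL ℝ (H p.1 p.2 1)).comp
          (ContinuousLinearMap.snd ℝ ℝ E2)) (Ioo (-T) T ×ˢ (univ : Set E2)) := by
        have c3 : ContinuousOn (fun p : ℝ × E2 => innerSL ℝ (H p.1 p.2 1))
            (Ioo (-T) T ×ˢ (univ : Set E2)) := (innerSL ℝ).continuous.comp_continuousOn hHcont
        exact c3.clm_comp continuousOn_const
      exact (c1.smul continuousOn_const).sub c2
    exact h1.congr fun p hp' => (hder p hp').fderiv
  · intro x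
    show Jf Q p0 0 x (H 0 x) = p0 x
    simp [Jf, path]
  · intro t ht x
    have hD := hder (t, x) ⟨ht, mem_univ _⟩
    have h1 : HasDerivAt (fun s : ℝ => (s, x)) ((1 : ℝ), (0 : E2)) t :=
      (hasDerivAt_id t).prodMk (hasDerivAt_const t x)
    have h2 : HasDerivAt (U ∘ fun s : ℝ => (s, x)) (Dp Q x (H t x 1) ((1 : ℝ), (0 : E2))) t :=
      HasFDerivAt.comp_hasDerivAt t hD h1
    have h2' : HasDerivAt (fun s => U (s, x)) (Dp Q x (H t x 1) ((1 : ℝ), (0 : E2))) t := h2
    have h3 : HasFDerivAt (fun y : E2 => U (t, y))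
        ((Dp Q x (H t x 1)).comp (ContinuousLinearMap.inr ℝ ℝ E2)) x :=
      hD.comp x (hasFDerivAt_prodMk_right t x)
    have h4 : HasGradientAt (fun y : E2 => U (t, y)) (-H t x 1) x := by
      rw [hasGradientAt_iff_hasFDerivAt]
      refine h3.congr_fderiv ?_
      refine ContinuousLinearMap.ext fun ξ => ?_
      rw [ContinuousLinearMap.comp_apply, ContinuousLinearMap.inr_apply, Dp_apply,
        InnerProductSpace.toDual_apply_apply, inner_neg_left]
      ring
    rw [h2'.deriv, h4.gradient, Dp_apply, norm_neg, inner_zero_right]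
    ring

end Pool.Agent.H817R4.Noz
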